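import Mathlib

set_option autoImplicit false

open Finset Filter Topology

namespace Pool.Agent.H.MP_6bff71_co

theorem sum_blk (f : ℕ → ℝ) (m n : ℕ) :
    ∑ t ∈ range (m * n), f t = ∑ q ∈ range n, ∑ s ∈ range m, f (m * q + s) := by
  induction n with
  | zero => simp
  | succ n ih => rw [Nat.mul_succ, sum_range_add, ih, sum_range_succ]

theorem lim_of_scale (G : ℕ → ℝ) (C : ℝ)
    (h : ∀ m n : ℕ, 0 < m → 0 < n → |G (m * n) - m ^ 2 * G n| ≤ C * m ^ 2 * n) :
    ∃ δ : ℝ, ∀ n : ℕ, 0 < n → |G n - δ * n ^ 2| ≤ C * n := by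
  set u : ℕ → ℝ := fun n => G n / n ^ 2 with hu
  have h1 : ∀ m n : ℕ, 0 < m → 0 < n → |u (m * n) - u n| ≤ C / n := by
    intro m n hm hn
    have a : (0 : ℝ) < m := by exact_mod_cast hm
    have b : (0 : ℝ) < n := by exact_mod_cast hn
    have e : u (m * n) - u n = (G (m * n) - m ^ 2 * G n) / (m ^ 2 * n ^ 2) := by
      simp only [hu]; push_cast; field_simp
    rw [e, abs_div, abs_of_pos (show (0 : ℝ) < m ^ 2 * n ^ 2 by positivity),
      div_le_iff₀ (by positivity)]
    refine (h m n hm hn).trans (le_of_eq ?_)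
    field_simp
  have h2 : ∀ m n : ℕ, 0 < m → 0 < n → |u n - u m| ≤ C / n + C / m := by
    intro m n hm hn
    have a := h1 m n hm hn
    have b := h1 n m hn hm
    rw [mul_comm n m] at b
    rw [abs_le] at a b ⊢
    constructor <;> linarith [a.1, a.2, b.1, b.2]
  have hC : 0 ≤ C := by simpa using h1 1 1 one_pos one_pos
  have t0 : Tendsto (fun n : ℕ => C / ((n + 1 : ℕ) : ℝ)) atTop (𝓝 0) :=
    (tendsto_const_div_atTop_nhds_zero_nat C).comp (tendsto_add_atTop_nat 1)
  have hc : CauchySeq (fun n => u (n + 1)) := by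
    refine cauchySeq_of_le_tendsto_0 (fun N : ℕ => C / ((N + 1 : ℕ) : ℝ) + C / ((N + 1 : ℕ) : ℝ))
      (fun n m N hn hm => ?_) (by simpa using t0.add t0)
    rw [Real.dist_eq]
    refine (h2 _ _ (Nat.succ_pos _) (Nat.succ_pos _)).trans (add_le_add ?_ ?_) <;>
      exact div_le_div_of_nonneg_left hC (by positivity) (by exact_mod_cast Nat.succ_le_succ ‹_›)
  obtain ⟨δ, hδ⟩ := cauchySeq_tendsto_of_complete hc
  refine ⟨δ, fun n hn => ?_⟩
  have b : (0 : ℝ) < n := by exact_mod_cast hn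
  have h3 : |u n - δ| ≤ C / n + 0 := le_of_tendsto_of_tendsto' (hδ.const_sub (u n)).abs
    (t0.const_add _) (fun m => h2 _ _ (Nat.succ_pos _) hn)
  have e : G n - δ * n ^ 2 = (u n - δ) * n ^ 2 := by simp only [hu]; field_simp
  rw [e, abs_mul, abs_of_pos (show (0 : ℝ) < n ^ 2 by positivity)]
  refine (mul_le_mul_of_nonneg_right h3 (by positivity)).trans (le_of_eq ?_)
  field_simp; ring

theorem tele (F : ℕ → ℕ) (hF : Monotone F) (n k B : ℕ) (hB : ∀ j < k, F (n + j) ≤ B) :
    ∑ q ∈ range n, (F (k + q) - F q) ≤ k * B := by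
  have h1 : ∑ q ∈ range n, (F (k + q) - F q) + ∑ q ∈ range n, F q = ∑ q ∈ range n, F (k + q) := by
    rw [← sum_add_distrib]
    exact sum_congr rfl (fun q _ => Nat.sub_add_cancel (hF (Nat.le_add_left _ _)))
  have h2 := sum_range_add F k n
  have h3 := sum_range_add F n k
  have h4 : ∑ j ∈ range k, F (n + j) ≤ k * B := by
    simpa using sum_le_card_nsmul (range k) _ B (fun j hj => hB j (mem_range.1 hj))
  rw [add_comm n k] at h3
  omega

variable {r : ℕ}

def col (N P : ℕ) (c : ℕ → ℕ → Fin r) (n x : ℕ) : Fin r := c (x * N / n) (x % P)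

open Classical in
noncomputable def W (k N P : ℕ) (c : ℕ → ℕ → Fin r) (n a d : ℕ) : ℝ :=
  if (a + (k - 1) * d) * N / n < N ∧ ∀ i < k, col N P c n (a + i * d) = col N P c n a then 1 else 0

noncomputable def G (k N P : ℕ) (c : ℕ → ℕ → Fin r) (n : ℕ) : ℝ :=
  ∑ a ∈ range (P * n), ∑ d ∈ range (P * n), W k N P c n a d

theorem W_eq {k N P : ℕ} (hk : 0 < k) (c : ℕ → ℕ → Fin r) {n a d n' a' d' : ℕ}
    (h : ∀ i < k, (a + i * d) * N / n = (a' + i * d') * N / n') (ha : a % P = a' % P)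
    (hd : d % P = d' % P) : W k N P c n a d = W k N P c n' a' d' := by
  have e : ∀ i < k, col N P c n (a + i * d) = col N P c n' (a' + i * d') := fun i hi => by
    rw [col, col, h i hi, Nat.add_mod, Nat.mul_mod, ha, hd, ← Nat.mul_mod, ← Nat.add_mod]
  have e0 := e 0 hk
  simp only [zero_mul, add_zero] at e0
  rw [W, W, h (k - 1) (by omega), e0]
  exact if_congr (and_congr Iff.rfl (forall₂_congr (fun i hi => by rw [e i hi]))) rfl rfl

theorem W_dif {k N P : ℕ} (hk : 0 < k) (c : ℕ → ℕ → Fin r) {m n q q' s s' α ρ : ℕ}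
    (hs : s < m) (hs' : s' < m) (hα : α < P) (hρ : ρ < P) :
    |W k N P c (m * n) (P * (m * q + s) + α) (P * (m * q' + s') + ρ) -
      W k N P c n (P * q + α) (P * q' + ρ)| ≤
      ((∑ i ∈ range k, ((P * (k + q) + i * (P * q')) * N / n - (P * q + i * (P * q')) * N / n) :
        ℕ) : ℝ) := by
  rcases Nat.eq_zero_or_pos (∑ i ∈ range k, ((P * (k + q) + i * (P * q')) * N / n -
    (P * q + i * (P * q')) * N / n)) with h | h
  · rw [h, W_eq hk c (n' := n) (a' := P * q + α) (d' := P * q' + ρ) (fun i hi => ?_)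
      (by simp) (by simp)]
    · simp
    have h1 := Nat.sub_eq_zero_iff_le.1 (sum_eq_zero_iff.1 h i (mem_range.2 hi))
    have hm : 0 < m := by omega
    have b1 : P * s + α ≤ P * m := by nlinarith
    have b2 : i * (P * s' + ρ) ≤ i * (P * m) := Nat.mul_le_mul_left _ (by nlinarith)
    have b3 : (i + 1) * (P * m) ≤ k * (P * m) := Nat.mul_le_mul_right _ hi
    have b4 : i * ρ ≤ i * P := Nat.mul_le_mul_left _ hρ.le
    have b5 : (i + 1) * P ≤ k * P := Nat.mul_le_mul_right _ hi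
    have a1 : (P * q + i * (P * q')) * N / n ≤
        (P * (m * q + s) + α + i * (P * (m * q' + s') + ρ)) * N / (m * n) := by
      rw [← Nat.mul_div_mul_left _ n hm, ← mul_assoc]
      exact Nat.div_le_div_right (Nat.mul_le_mul_right _
        (by linarith [Nat.zero_le (P * s + α), Nat.zero_le (i * (P * s' + ρ))]))
    have a2 : (P * (m * q + s) + α + i * (P * (m * q' + s') + ρ)) * N / (m * n) ≤
        (P * (k + q) + i * (P * q')) * N / n := by
      rw [← Nat.mul_div_mul_left _ n hm, ← mul_assoc]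
      exact Nat.div_le_div_right (Nat.mul_le_mul_right _ (by nlinarith))
    have a3 : (P * q + i * (P * q')) * N / n ≤ (P * q + α + i * (P * q' + ρ)) * N / n :=
      Nat.div_le_div_right (Nat.mul_le_mul_right _ (by nlinarith))
    have a4 : (P * q + α + i * (P * q' + ρ)) * N / n ≤ (P * (k + q) + i * (P * q')) * N / n :=
      Nat.div_le_div_right (Nat.mul_le_mul_right _ (by nlinarith))
    omega
  · refine le_trans ?_ (Nat.one_le_cast.2 h)
    unfold W
    split_ifs <;> simp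

theorem abs_sum_le {s : Finset ℕ} {f g b : ℕ → ℝ} (h : ∀ x ∈ s, |f x - g x| ≤ b x) :
    |∑ x ∈ s, f x - ∑ x ∈ s, g x| ≤ ∑ x ∈ s, b x := by
  rw [← sum_sub_distrib]
  exact (abs_sum_le_sum_abs _ _).trans (sum_le_sum h)

theorem G_scale {k N P : ℕ} (hk : 0 < k) (c : ℕ → ℕ → Fin r) (m n : ℕ) (hn : 0 < n) :
    |G k N P c (m * n) - m ^ 2 * G k N P c n| ≤
      ((P * P * (k * (k * ((2 * k + 1) * P * N))) : ℕ) : ℝ) * m ^ 2 * n := by
  set D : ℕ → ℕ → ℕ := fun q q' => ∑ i ∈ range k,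
    ((P * (k + q) + i * (P * q')) * N / n - (P * q + i * (P * q')) * N / n) with hD
  have e1 : m ^ 2 * G k N P c n = ∑ q ∈ range n, ∑ _s ∈ range m, ∑ α ∈ range P, ∑ q' ∈ range n,
      ∑ _s' ∈ range m, ∑ ρ ∈ range P, W k N P c n (P * q + α) (P * q' + ρ) := by
    simp only [G, sum_blk, sum_const, card_range, nsmul_eq_mul, ← mul_sum]
    ring
  have e2 : ∀ q' < n, ∑ q ∈ range n, D q q' ≤ k * (k * ((2 * k + 1) * P * N)) := by
    intro q' hq'
    simp only [hD]
    rw [sum_comm]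
    refine (sum_le_card_nsmul _ _ (k * ((2 * k + 1) * P * N)) (fun i hi => ?_)).trans (by simp)
    refine tele (fun q => (P * q + i * (P * q')) * N / n) (fun x y h =>
      Nat.div_le_div_right (Nat.mul_le_mul_right _ (by nlinarith))) n k _ (fun j hj => ?_)
    refine Nat.div_le_of_le_mul ?_
    have b1 : i * q' ≤ k * n := Nat.mul_le_mul (mem_range.1 hi).le hq'.le
    have b2 : j ≤ k * n := by nlinarith
    have : P * (n + j) + i * (P * q') ≤ n * ((2 * k + 1) * P) := by
      nlinarith [Nat.mul_le_mul_left P b1, Nat.mul_le_mul_left P b2]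
    nlinarith [Nat.mul_le_mul_right N this]
  rw [e1]
  simp only [G, sum_blk]
  refine (abs_sum_le (fun q _ => abs_sum_le (fun s hs => abs_sum_le (fun α hα => abs_sum_le
    (fun q' _ => abs_sum_le (fun s' hs' => abs_sum_le (fun ρ hρ => W_dif hk c (mem_range.1 hs)
      (mem_range.1 hs') (mem_range.1 hα) (mem_range.1 hρ)))))))).trans ?_
  simp only [sum_const, card_range, nsmul_eq_mul, ← mul_sum]
  have e3 : (∑ q ∈ range n, ∑ q' ∈ range n, (D q q' : ℝ)) ≤
      n * ((k * (k * ((2 * k + 1) * P * N)) : ℕ) : ℝ) := by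
    rw [sum_comm]
    refine (sum_le_card_nsmul _ _ ((k * (k * ((2 * k + 1) * P * N)) : ℕ) : ℝ)
      (fun q' hq' => ?_)).trans (by simp)
    exact_mod_cast e2 q' (mem_range.1 hq')
  have := mul_le_mul_of_nonneg_left e3 (show (0 : ℝ) ≤ m * P * m * P by positivity)
  simp only [hD] at this
  push_cast at this ⊢
  linarith

end Pool.Agent.H.MP_6bff71_co
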