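import Mathlib
import Pool.Agent.H.MP_6bff71_co.A

set_option autoImplicit false

open Finset Filter Topology

namespace Pool.Agent.H.MP_6bff71_co

open Classical in
theorem expect {ι : Type} [Fintype ι] [DecidableEq ι] {r k : ℕ} (w : ι → Fin r → ℝ)
    (w0 : ∀ j c, 0 ≤ w j c) (w1 : ∀ j, ∑ c, w j c = 1) (key : ℕ → ι)
    (hk : Set.InjOn key (range k)) :
    ∑ ω : ι → Fin r, (∏ j, w j (ω j)) * (if ∀ i < k, ω (key i) = ω (key 0) then 1 else 0) ≤
      ∑ c, ∏ i ∈ range k, w (key i) c := by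
  have e : ∀ c, ∏ i ∈ range k, w (key i) c = ∑ ω : ι → Fin r, ∏ j,
      (w j (ω j) * if j ∈ (range k).image key then (if ω j = c then 1 else 0) else 1) := by
    intro c
    rw [← Fintype.piFinset_univ, ← prod_univ_sum (fun _ => univ) (fun j x => w j x *
      if j ∈ (range k).image key then (if x = c then 1 else 0) else 1),
      ← prod_image (f := fun j => w j c) hk, ← prod_ite_mem_eq]
    refine prod_congr rfl (fun j _ => ?_)
    split_ifs
    · simp
    · simpa using (w1 j).symm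
  simp_rw [e]
  rw [sum_comm]
  refine sum_le_sum (fun ω _ => ?_)
  have p : ∀ c, 0 ≤ ∏ j, (w j (ω j) *
      if j ∈ (range k).image key then (if ω j = c then 1 else 0) else 1) :=
    fun c => prod_nonneg (fun j _ => mul_nonneg (w0 _ _) (by split_ifs <;> norm_num))
  split_ifs with h
  · refine le_trans (le_of_eq ?_) (single_le_sum (fun c _ => p c) (mem_univ (ω (key 0))))
    rw [mul_one]
    refine prod_congr rfl (fun j _ => ?_)
    split_ifs with h1 h2
    · simp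
    · obtain ⟨i, hi, rfl⟩ := mem_image.1 h1
      exact absurd (h i (mem_range.1 hi)) h2
    · simp
  · rw [mul_zero]; exact sum_nonneg (fun c _ => p c)

def e2 (k : ℕ) (t : ℕ → ℝ) : ℝ := ∑ j ∈ range k, ∑ i ∈ range j, t i * t j

theorem taylor (k : ℕ) : ∃ C : ℝ, 0 ≤ C ∧ ∀ ε : ℝ, 0 ≤ ε → ε ≤ 1 → ∀ t : ℕ → ℝ, (∀ i, |t i| ≤ ε) →
    |∑ i ∈ range k, t i| ≤ C * ε ∧ |e2 k t| ≤ C * ε ^ 2 ∧
    |∏ i ∈ range k, (1 + t i) - (1 + ∑ i ∈ range k, t i + e2 k t)| ≤ C * ε ^ 3 := by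
  induction k with
  | zero => exact ⟨0, le_rfl, fun ε _ _ t _ => by simp [e2]⟩
  | succ k ih =>
    obtain ⟨C, hC, h⟩ := ih
    refine ⟨3 * C + 1, by positivity, fun ε e0 e1 t ht => ?_⟩
    obtain ⟨h1, h2, h3⟩ := h ε e0 e1 t ht
    have hk := ht k
    have e : e2 (k + 1) t = e2 k t + (∑ i ∈ range k, t i) * t k := by
      rw [e2, sum_range_succ, sum_mul, e2]
    rw [e, sum_range_succ, prod_range_succ]
    have m1 : |(∑ i ∈ range k, t i) * t k| ≤ C * ε * ε := by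
      rw [abs_mul]; exact mul_le_mul h1 hk (abs_nonneg _) (by positivity)
    have m2 : |e2 k t * t k| ≤ C * ε ^ 2 * ε := by
      rw [abs_mul]; exact mul_le_mul h2 hk (abs_nonneg _) (by positivity)
    have m3 : |(∏ i ∈ range k, (1 + t i) - (1 + ∑ i ∈ range k, t i + e2 k t)) * t k| ≤
        C * ε ^ 3 * 1 := by
      rw [abs_mul]; exact mul_le_mul h3 (hk.trans e1) (abs_nonneg _) (by positivity)
    have p1 : 0 ≤ C * ε := by positivity
    have p2 : 0 ≤ C * ε ^ 2 := by positivity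
    have p3 : 0 ≤ ε ^ 2 := by positivity
    have p4 : 0 ≤ ε ^ 3 := by positivity
    rw [abs_le] at h1 h2 h3 hk m1 m2 m3
    refine ⟨abs_le.2 ⟨?_, ?_⟩, abs_le.2 ⟨?_, ?_⟩, abs_le.2 ⟨?_, ?_⟩⟩ <;>
      linarith [h1.1, h1.2, h2.1, h2.2, h3.1, h3.2, hk.1, hk.2, m1.1, m1.2, m2.1, m2.2, m3.1, m3.2]

def sg {r : ℕ} (c : Fin r) : ℝ := if c.val = 0 then 1 else if c.val = 1 then -1 else 0

theorem sg_abs {r : ℕ} (c : Fin r) : |sg c| ≤ 1 := by unfold sg; split_ifs <;> simp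

theorem sg_sum {r : ℕ} (hr : 2 ≤ r) : ∑ c : Fin r, sg c = 0 ∧ ∑ c : Fin r, sg c ^ 2 = 2 := by
  obtain ⟨r, rfl⟩ := Nat.exists_eq_add_of_le' hr
  simp [Fin.sum_univ_succ, sg]
  norm_num

theorem colsum {r : ℕ} (hr : 2 ≤ r) (k : ℕ) : ∃ C : ℝ, 0 ≤ C ∧ ∀ ε : ℝ, 0 ≤ ε → ε ≤ 1 →
    ∀ g : ℕ → ℝ, (∀ i, |g i| ≤ 1) → ∑ c : Fin r, ∏ i ∈ range k, (1 + sg c * (ε * g i)) / r ≤
      (r + 2 * ε ^ 2 * e2 k g + C * ε ^ 3) / r ^ k := by
  obtain ⟨C, hC, h⟩ := taylor k
  refine ⟨r * C, by positivity, fun ε e0 e1 g hg => ?_⟩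
  simp only [prod_div_distrib, prod_const, card_range, ← sum_div]
  refine div_le_div_of_nonneg_right ?_ (by positivity)
  have : ∀ c : Fin r, ∏ i ∈ range k, (1 + sg c * (ε * g i)) ≤
      1 + sg c * (ε * ∑ i ∈ range k, g i) + sg c ^ 2 * (ε ^ 2 * e2 k g) + C * ε ^ 3 := by
    intro c
    have h3 := (abs_le.1 (h ε e0 e1 (fun i => sg c * (ε * g i)) (fun i => by
      rw [abs_mul, abs_mul, abs_of_nonneg e0]
      nlinarith [mul_le_mul (sg_abs c) (hg i) (abs_nonneg _) zero_le_one])).2.2).2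
    have e : e2 k (fun i => sg c * (ε * g i)) = sg c ^ 2 * (ε ^ 2 * e2 k g) := by
      simp only [e2, mul_sum]
      exact sum_congr rfl (fun j _ => sum_congr rfl (fun i _ => by ring))
    rw [e, ← mul_sum, ← mul_sum] at h3
    linarith
  refine (sum_le_sum (fun c _ => this c)).trans (le_of_eq ?_)
  simp only [sum_add_distrib, ← sum_mul, (sg_sum hr).1, (sg_sum hr).2]
  simp; ring

noncomputable def gam (k : ℕ) (lam : ℝ) (b : ℕ) : ℝ :=
  (if b = 3 * k then 1 else 0) - (if b = 3 * k + 2 then 1 else 0) +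
    lam * (if b = (k - 1) * (3 * k + 1) then 1 else 0)

noncomputable def gg (k : ℕ) (lam : ℝ) (D m x : ℕ) : ℝ :=
  if D ∣ x then gam k lam (x / (D * m)) else 0

theorem gsum {k D m N : ℕ} (lam : ℝ) (hD : 0 < D) (h1 : 3 * k + 2 < N)
    (h2 : (k - 1) * (3 * k + 1) < N) (φ : ℕ → ℝ) :
    ∑ u ∈ range (D * (m * N)), gg k lam D m u * φ u = ∑ s ∈ range m, (φ (D * (m * (3 * k) + s)) -
      φ (D * (m * (3 * k + 2) + s)) + lam * φ (D * (m * ((k - 1) * (3 * k + 1)) + s))) := by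
  have e : ∀ t, ∑ e ∈ range D, gg k lam D m (D * t + e) * φ (D * t + e) =
      gam k lam (t / m) * φ (D * t) := by
    intro t
    rw [sum_eq_single 0 (fun e he h0 => ?_) (fun h => absurd (mem_range.2 hD) h)]
    · rw [add_zero, gg, if_pos (dvd_mul_right _ _), Nat.mul_div_mul_left _ _ hD]
    · rw [gg, if_neg, zero_mul]
      rw [Nat.dvd_add_right (dvd_mul_right _ _)]
      exact Nat.not_dvd_of_pos_of_lt (Nat.pos_of_ne_zero h0) (mem_range.1 he)
  rw [sum_blk]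
  simp_rw [e]
  rw [sum_blk, sum_comm]
  refine sum_congr rfl (fun s hs => ?_)
  have hs' := mem_range.1 hs
  have e' : ∀ b, (m * b + s) / m = b := fun b => by
    rw [Nat.mul_add_div (by omega), Nat.div_eq_of_lt hs', add_zero]
  simp only [e', gam, add_mul, sub_mul, sum_add_distrib, sum_sub_distrib, mul_assoc, ← mul_sum,
    ite_mul, one_mul, zero_mul, sum_ite_eq', mem_range, h1, h2, if_true,
    show 3 * k < N by omega]

def U (k n i j u v : ℕ) : Prop :=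
  u < v ∧ i * v ≤ j * u ∧ (k - 1 - i) * v < (j - i) * n + (k - 1 - j) * u

def S (k n L : ℕ) : Finset (ℕ × ℕ) :=
  (range L ×ˢ range L).filter (fun p => p.2 ≠ 0 ∧ p.1 + (k - 1) * p.2 < n)

open Classical in
theorem reidx {k n L i j : ℕ} (hij : i < j) (hj : j < k) (hL : n ≤ L) (g : ℕ → ℝ)
    (hg : ∀ x, g x ≠ 0 → (j - i) ∣ x) :
    ∑ p ∈ S k n L, g (p.1 + i * p.2) * g (p.1 + j * p.2) =
      ∑ u ∈ range n, g u * ∑ v ∈ range n, g v * if U k n i j u v then 1 else 0 := by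
  obtain ⟨h, rfl⟩ := Nat.exists_eq_add_of_lt hij
  obtain ⟨l, rfl⟩ := Nat.exists_eq_add_of_lt hj
  have e1 : i + h + 1 + l + 1 - 1 = i + h + 1 + l := by omega
  have e2 : i + h + 1 + l - i = h + 1 + l := by omega
  have e3 : i + h + 1 - i = h + 1 := by omega
  have e4 : i + h + 1 + l - (i + h + 1) = l := by omega
  simp only [mul_sum, mul_ite, mul_one, mul_zero]
  rw [← sum_product', ← sum_filter]
  rw [e3] at hg
  refine sum_bij_ne_zero (fun p _ _ => (p.1 + i * p.2, p.1 + (i + h + 1) * p.2)) ?_ ?_ ?_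
    (fun _ _ _ => rfl)
  · rintro ⟨a, d⟩ hp -
    simp only [S, U, mem_filter, mem_product, mem_range, e1, e2, e3, e4] at hp ⊢
    obtain ⟨-, h0, h1⟩ := hp
    have := Nat.pos_of_ne_zero h0
    refine ⟨⟨by nlinarith, by nlinarith⟩, by nlinarith, by nlinarith, by nlinarith⟩
  · rintro ⟨a, d⟩ - - ⟨a', d'⟩ - - hh
    simp only [Prod.mk.injEq] at hh ⊢
    have : (h + 1) * d = (h + 1) * d' := by nlinarith [hh.1, hh.2]
    have := Nat.eq_of_mul_eq_mul_left (Nat.succ_pos h) this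
    subst this
    omega
  · rintro ⟨u, v⟩ hp hne
    simp only [U, mem_filter, mem_product, mem_range, e1, e2, e3, e4] at hp
    obtain ⟨u, rfl⟩ := hg u (left_ne_zero_of_mul hne)
    obtain ⟨v, rfl⟩ := hg v (right_ne_zero_of_mul hne)
    obtain ⟨-, h1, h2, h3⟩ := hp
    obtain ⟨d, rfl⟩ := Nat.exists_eq_add_of_lt (Nat.lt_of_mul_lt_mul_left h1)
    have h4 : i * (d + 1) ≤ (h + 1) * u := Nat.le_of_mul_le_mul_left (by nlinarith) (Nat.succ_pos h)
    obtain ⟨a, ha⟩ := Nat.exists_eq_add_of_le' h4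
    have h5 : a + (i + h + 1 + l) * (d + 1) < n :=
      Nat.lt_of_mul_lt_mul_left (a := h + 1) (by nlinarith)
    have h6 : a + (i + h + 1) * (d + 1) = (h + 1) * (u + d + 1) := by nlinarith
    refine ⟨(a, d + 1), ?_, by simpa only [← ha, h6] using hne, by simp only [← ha, h6]⟩
    simp only [S, mem_filter, mem_product, mem_range, e1]
    exact ⟨⟨by omega, by nlinarith⟩, by omega, h5⟩

end Pool.Agent.H.MP_6bff71_co
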