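import Mathlib
import Pool.Agent.H.MP_6bff71_co.B

set_option autoImplicit false

open Finset Filter Topology

namespace Pool.Agent.H.MP_6bff71_co

open Classical in
theorem pair {k D m i j : ℕ} (hk : 3 ≤ k) (hij : i < j) (hj : j < k) (hD : 0 < D) {lam : ℝ}
    (hl : 0 ≤ lam) {N n : ℕ} (hN : N = (k - 1) * (3 * k + 1) + 1) (hn : n = D * (m * N)) :
    ∑ u ∈ range n, gg k lam D m u * ∑ v ∈ range n, gg k lam D m v *
      (if U k n i j u v then 1 else 0) ≤
      (lam ^ 2 - if i = 1 ∧ j = k - 1 then lam else 0) * m ^ 2 := by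
  obtain ⟨h, rfl⟩ := Nat.exists_eq_add_of_lt hij
  obtain ⟨l, hkl⟩ := Nat.exists_eq_add_of_lt hj
  have e1 : k - 1 - i = h + 1 + l := by omega
  have e2 : i + h + 1 - i = h + 1 := by omega
  have e3 : k - 1 - (i + h + 1) = l := by omega
  set c := (k - 1) * (3 * k + 1) with hc
  have c1 : 6 * k + 2 ≤ c := by
    have := Nat.mul_le_mul_right (3 * k + 1) (show 2 ≤ k - 1 by omega); omega
  have n1 : 3 * k + 2 < N := by omega
  have n2 : c < N := by omega
  have key : ∀ s ∈ range m, ∀ s' ∈ range m,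
      ((if U k n i (i + h + 1) (D * (m * (3 * k) + s)) (D * (m * (3 * k) + s')) then 1 else 0) -
        (if U k n i (i + h + 1) (D * (m * (3 * k) + s)) (D * (m * (3 * k + 2) + s')) then 1 else 0) +
        lam * (if U k n i (i + h + 1) (D * (m * (3 * k) + s)) (D * (m * c + s')) then 1 else 0)) -
      ((if U k n i (i + h + 1) (D * (m * (3 * k + 2) + s)) (D * (m * (3 * k) + s')) then 1 else 0) -
        (if U k n i (i + h + 1) (D * (m * (3 * k + 2) + s)) (D * (m * (3 * k + 2) + s')) then 1
          else 0) + lam * (if U k n i (i + h + 1) (D * (m * (3 * k + 2) + s)) (D * (m * c + s'))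
            then 1 else 0)) +
      lam * ((if U k n i (i + h + 1) (D * (m * c + s)) (D * (m * (3 * k) + s')) then 1 else 0) -
        (if U k n i (i + h + 1) (D * (m * c + s)) (D * (m * (3 * k + 2) + s')) then 1 else 0) +
        lam * (if U k n i (i + h + 1) (D * (m * c + s)) (D * (m * c + s')) then 1 else 0)) ≤
      2 * (if s < s' then 1 else 0) - 1 +
        (lam ^ 2 - if i = 1 ∧ i + h + 1 = k - 1 then lam else 0) := by
    intro s hs s' hs'
    have hs := mem_range.1 hs
    have hs' := mem_range.1 hs'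
    have b0 : ∀ b, (if U k n i (i + h + 1) (D * (m * b + s)) (D * (m * b + s')) then (1 : ℝ)
        else 0) ≤ if s < s' then 1 else 0 := fun b => by
      by_cases h1 : U k n i (i + h + 1) (D * (m * b + s)) (D * (m * b + s'))
      · rw [if_pos h1, if_pos (by have := Nat.lt_of_mul_lt_mul_left h1.1; omega)]
      · rw [if_neg h1]; split_ifs <;> norm_num
    have m1 : m * (6 * k + 2) ≤ m * c := Nat.mul_le_mul_left _ c1
    have b1 : U k n i (i + h + 1) (D * (m * (3 * k) + s)) (D * (m * (3 * k + 2) + s')) := by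
      have t1 : i * (2 * m + s') ≤ k * (3 * m) := Nat.mul_le_mul (by omega) (by omega)
      have t2 : l * (2 * m + s') ≤ (h + 1) * (k * (3 * m)) :=
        (Nat.mul_le_mul (show l ≤ k by omega) (show 2 * m + s' ≤ 3 * m by omega)).trans
          (Nat.le_mul_of_pos_left _ (Nat.succ_pos h))
      have t3 : (h + 1) * (m * (3 * k + 2) + s' + k * (3 * m)) < (h + 1) * (m * N) :=
        Nat.mul_lt_mul_of_pos_left (by rw [hN]; nlinarith) (Nat.succ_pos h)
      refine ⟨Nat.mul_lt_mul_of_pos_left (by nlinarith) hD, ?_, ?_⟩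
      · rw [mul_left_comm, mul_left_comm (i + h + 1)]
        refine Nat.mul_le_mul_left _ ?_
        linarith [Nat.zero_le (i * s), Nat.zero_le s, Nat.zero_le (h * (m * (3 * k) + s))]
      · rw [e1, e2, e3, hn, mul_left_comm, mul_left_comm (h + 1), mul_left_comm l, ← mul_add]
        exact Nat.mul_lt_mul_of_pos_left (by nlinarith [Nat.zero_le (l * s)]) hD
    have b2 : ¬ U k n i (i + h + 1) (D * (m * c + s)) (D * (m * (3 * k) + s')) := fun h1 => by
      have := Nat.lt_of_mul_lt_mul_left h1.1; nlinarith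
    have b3 : (if U k n i (i + h + 1) (D * (m * (3 * k) + s)) (D * (m * c + s')) then (1 : ℝ)
        else 0) + (if i = 1 ∧ i + h + 1 = k - 1 then 1 else 0) ≤
        if U k n i (i + h + 1) (D * (m * (3 * k + 2) + s)) (D * (m * c + s')) then 1 else 0 := by
      have t0 : D * (m * (3 * k + 2) + s) < D * (m * c + s') :=
        Nat.mul_lt_mul_of_pos_left (by nlinarith) hD
      have t1 : D * (m * (3 * k) + s) ≤ D * (m * (3 * k + 2) + s) :=
        Nat.mul_le_mul_left _ (by nlinarith)
      by_cases h2 : i = 1 ∧ i + h + 1 = k - 1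
      · obtain ⟨rfl, h2⟩ := h2
        rw [if_neg, if_pos ⟨rfl, h2⟩, if_pos, zero_add]
        · refine ⟨t0, ?_, ?_⟩
          · rw [h2, one_mul, mul_left_comm (k - 1) D]
            refine Nat.mul_le_mul_left _ ?_
            have : m * 1 ≤ m * (k - 1) := Nat.mul_le_mul_left _ (by omega)
            rw [hc]; nlinarith [Nat.zero_le ((k - 1) * s)]
          · rw [e1, e2, e3, show l = 0 by omega, add_zero, zero_mul, add_zero, hn]
            exact Nat.mul_lt_mul_of_pos_left (Nat.mul_lt_mul_of_pos_left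
              (by rw [hN]; nlinarith) hD) (Nat.succ_pos h)
        · intro h1
          have h3 := h1.2.1
          rw [h2, one_mul, mul_left_comm (k - 1) D] at h3
          have h4 := Nat.le_of_mul_le_mul_left h3 hD
          have : (k - 1) * s < (k - 1) * m := Nat.mul_lt_mul_of_pos_left hs (by omega)
          rw [hc] at h4; nlinarith [Nat.zero_le s']
      · rw [if_neg h2, add_zero]
        by_cases h1 : U k n i (i + h + 1) (D * (m * (3 * k) + s)) (D * (m * c + s'))
        · rw [if_pos h1, if_pos ⟨t0, h1.2.1.trans (Nat.mul_le_mul_left _ t1),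
            h1.2.2.trans_le (Nat.add_le_add_left (Nat.mul_le_mul_left _ t1) _)⟩]
        · rw [if_neg h1]; split_ifs <;> norm_num
    have z : ∀ p : Prop, (0 : ℝ) ≤ (if p then 1 else 0) ∧ (if p then 1 else 0 : ℝ) ≤ 1 :=
      fun p => by split_ifs <;> norm_num
    have e : (if i = 1 ∧ i + h + 1 = k - 1 then lam else 0) =
        lam * if i = 1 ∧ i + h + 1 = k - 1 then 1 else 0 := by split_ifs <;> simp
    rw [if_pos b1, if_neg b2, e]
    nlinarith [b0 (3 * k), b0 (3 * k + 2), mul_le_mul_of_nonneg_left b3 hl,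
      (z (U k n i (i + h + 1) (D * (m * (3 * k + 2) + s)) (D * (m * (3 * k) + s')))).1,
      mul_nonneg hl (z (U k n i (i + h + 1) (D * (m * c + s)) (D * (m * (3 * k + 2) + s')))).1,
      mul_le_mul_of_nonneg_left (z (U k n i (i + h + 1) (D * (m * c + s)) (D * (m * c + s')))).2
        (sq_nonneg lam)]
  have sym : ∑ s ∈ range m, ∑ s' ∈ range m, (2 * (if s < s' then 1 else 0) - 1 : ℝ) ≤ 0 := by
    have a : ∑ s ∈ range m, ∑ s' ∈ range m, (2 * (if s < s' then 1 else 0) - 1 : ℝ) =
      ∑ s ∈ range m, ∑ s' ∈ range m, (2 * (if s' < s then 1 else 0) - 1 : ℝ) := sum_comm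
    have b : ∑ s ∈ range m, ∑ s' ∈ range m, ((2 * (if s < s' then 1 else 0) - 1 : ℝ) +
        (2 * (if s' < s then 1 else 0) - 1)) ≤ 0 :=
      sum_nonpos (fun s _ => sum_nonpos (fun s' _ => by split_ifs <;> first | omega | norm_num))
    simp only [sum_add_distrib] at b
    linarith
  nth_rw 1 [hn]
  rw [gsum lam hD n1 n2]
  have hg := fun φ => gsum (k := k) (m := m) lam hD n1 n2 φ
  rw [← hn] at hg
  simp only [hg, ← hc, ← sum_sub_distrib, mul_sum, ← sum_add_distrib]
  refine (sum_le_sum (fun s hs => sum_le_sum (fun s' hs' => key s hs s' hs'))).trans ?_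
  simp only [sum_add_distrib, sum_const, card_range, nsmul_eq_mul]
  linarith

theorem S_card {k n L : ℕ} (hk : 2 ≤ k) : (2 * (k - 1) : ℝ) * (S k n L).card ≤ n ^ 2 := by
  obtain ⟨κ, rfl⟩ := Nat.exists_eq_add_of_le' (show 1 ≤ k by omega)
  have h1 : (S (κ + 1) n L).card ≤ ∑ d ∈ range L, (n - κ * (d + 1)) := by
    have : S (κ + 1) n L ⊆ (range L).biUnion (fun d => (range (n - κ * (d + 1))).image
        (fun a => (a, d + 1))) := by
      rintro ⟨a, d⟩ hp
      simp only [S, mem_filter, mem_product, mem_range, Nat.add_sub_cancel] at hp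
      obtain ⟨d, rfl⟩ := Nat.exists_eq_succ_of_ne_zero hp.2.1
      simp only [mem_biUnion, mem_image, mem_range]
      exact ⟨d, by omega, a, by have := hp.2.2; rw [Nat.succ_eq_add_one] at this; omega, rfl⟩
    exact (card_le_card this).trans (card_biUnion_le.trans
      (sum_le_sum (fun d _ => card_image_le.trans (by simp))))
  have h2 : ∀ T, 2 * κ * ∑ d ∈ range T, (n - κ * (d + 1)) + (n - κ * T) ^ 2 ≤ n ^ 2 := by
    intro T
    induction T with
    | zero => simp
    | succ T ih =>
      rw [sum_range_succ]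
      rcases le_total n (κ * (T + 1)) with h | h
      · rw [Nat.sub_eq_zero_of_le h]; nlinarith [Nat.zero_le ((n - κ * T) ^ 2)]
      · have : n - κ * T = n - κ * (T + 1) + κ := by rw [mul_add] at h ⊢; omega
        rw [this] at ih; nlinarith [Nat.zero_le (κ ^ 2)]
  have h3 : 2 * κ * (S (κ + 1) n L).card ≤ n ^ 2 := by
    nlinarith [h2 L, Nat.mul_le_mul_left (2 * κ) h1, Nat.zero_le ((n - κ * L) ^ 2)]
  have : ((2 * κ * (S (κ + 1) n L).card : ℕ) : ℝ) ≤ (n ^ 2 : ℕ) := Nat.cast_le.2 h3
  push_cast at this ⊢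
  linarith

open Classical in
theorem bad {k n L P : ℕ} (hk : 2 ≤ k) (hP : 0 < P) :
    P * ((S k n L).filter (fun p => ∃ h < k, 0 < h ∧ P ∣ h * p.2)).card ≤ k * k * n * n := by
  have : (S k n L).filter (fun p => ∃ h < k, 0 < h ∧ P ∣ h * p.2) ⊆
      ((range k) ×ˢ (range (k * n / P)) ×ˢ range n).image
        (fun x => (x.2.2, P * (x.2.1 + 1) / x.1)) := by
    rintro ⟨a, d⟩ hp
    simp only [S, mem_filter, mem_product, mem_range] at hp
    obtain ⟨⟨-, h0, h1⟩, h, h2, h3, t, ht⟩ := hp
    have h4 : 1 * d ≤ (k - 1) * d := Nat.mul_le_mul_right _ (by omega)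
    have t0 : t ≠ 0 := by rintro rfl; simp at ht; omega
    obtain ⟨t, rfl⟩ := Nat.exists_eq_succ_of_ne_zero t0
    simp only [mem_image, mem_product, mem_range]
    refine ⟨(h, t, a), ⟨h2, (Nat.le_div_iff_mul_le hP).2 ?_, (show a < n by omega)⟩, ?_⟩
    · rw [mul_comm, ← ht]; exact Nat.mul_le_mul h2.le (by omega)
    · rw [Nat.succ_eq_add_one] at ht
      simp only [← ht, Nat.mul_div_cancel_left _ h3]
  have h := (card_le_card this).trans card_image_le
  simp only [card_product, card_range] at h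
  nlinarith [Nat.mul_le_mul_left P h, Nat.mul_le_mul_left (k * n) (Nat.mul_div_le (k * n) P)]

end Pool.Agent.H.MP_6bff71_co
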